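import Pool.Agent.Helper49_Pauli.Interface

/-!
# HALF: real modes
-/

open MeasureTheory Complex Matrix

set_option linter.unusedSectionVars false

namespace Pool.Agent.Helper75_Pauli.Half

open Pool.Agent.Helper49_Pauli


section rotation

variable {M D : Type} [Fintype M] [DecidableEq M] [NormedAddCommGroup D] [InnerProductSpace ℂ D]

lemma expand (f g : M → D →ₗ[ℂ] D) (u w : M → ℂ) (v : D) :
    (∑ j, u j • f j) ((∑ k, w k • g k) v) = ∑ x, ∑ y, (u x * w y) • f x (g y v) := by
  rw [LinearMap.sum_apply]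
  refine Finset.sum_congr rfl fun x _ => ?_
  rw [LinearMap.smul_apply, LinearMap.sum_apply, map_sum, Finset.smul_sum]
  refine Finset.sum_congr rfl fun y _ => ?_
  rw [LinearMap.smul_apply, map_smul, mul_smul]

/-- Unitary rotation of the modes. -/
noncomputable def rot (F : Bosons M D) (U : Matrix M M ℂ) (hU : U * Uᴴ = 1) : Bosons M D where
  a i := ∑ j, U i j • F.a j
  ad i := ∑ j, (starRingEnd ℂ) (U i j) • F.ad j
  adj i u v := by
    simp only [LinearMap.sum_apply, LinearMap.smul_apply, sum_inner, inner_sum, inner_smul_left,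
      inner_smul_right, F.adj, Complex.conj_conj]
  ccr i i' v := by
    rw [expand, expand]
    have h1 : ∑ x, ∑ y, ((starRingEnd ℂ) (U i' x) * U i y) • F.ad x (F.a y v) =
        ∑ x, ∑ y, (U i x * (starRingEnd ℂ) (U i' y)) • F.ad y (F.a x v) := by
      rw [Finset.sum_comm]
      refine Finset.sum_congr rfl fun x _ => Finset.sum_congr rfl fun y _ => ?_
      rw [mul_comm]
    have h2 : (∑ x, ∑ y, (U i x * (starRingEnd ℂ) (U i' y)) • F.a x (F.ad y v)) -
        ∑ x, ∑ y, ((starRingEnd ℂ) (U i' x) * U i y) • F.ad x (F.a y v) =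
        (∑ x, U i x * (starRingEnd ℂ) (U i' x)) • v := by
      rw [h1, ← Finset.sum_sub_distrib, Finset.sum_smul]
      refine Finset.sum_congr rfl fun x _ => ?_
      rw [← Finset.sum_sub_distrib]
      have h0 : ∀ y, (U i x * (starRingEnd ℂ) (U i' y)) • F.a x (F.ad y v) -
          (U i x * (starRingEnd ℂ) (U i' y)) • F.ad y (F.a x v) =
          (U i x * (starRingEnd ℂ) (U i' y)) • (if x = y then v else 0) := by
        intro y
        rw [← F.ccr x y v, smul_sub]
      simp_rw [h0]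
      simp
    have h3 : (∑ x, U i x * (starRingEnd ℂ) (U i' x)) = if i = i' then 1 else 0 := by
      have := congrFun (congrFun hU i) i'
      rw [Matrix.mul_apply, Matrix.one_apply] at this
      simpa [Matrix.conjTranspose_apply] using this
    rw [h2, h3]
    split_ifs <;> simp
  ccr' i i' v := by
    rw [expand, expand, Finset.sum_comm]
    refine Finset.sum_congr rfl fun x _ => Finset.sum_congr rfl fun y _ => ?_
    rw [F.ccr', mul_comm]
  vac := F.vac
  norm_vac := F.norm_vac
  a_vac i := by simp [F.a_vac]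

/-- A frequency function commuting with `U` gives the same field energy. -/
lemma rot_energy (F : Bosons M D) (U : Matrix M M ℂ) (hU : U * Uᴴ = 1) (w : M → ℂ)
    (hw : ∀ i j, U i j ≠ 0 → w i = w j) (v : D) :
    ∑ i, w i • (rot F U hU).ad i ((rot F U hU).a i v) = ∑ i, w i • F.ad i (F.a i v) := by
  have h : ∀ i, w i • (rot F U hU).ad i ((rot F U hU).a i v) =
      ∑ x, ∑ y, ((starRingEnd ℂ) (U i x) * U i y * w y) • F.ad x (F.a y v) := by
    intro i
    change w i • (∑ j, (starRingEnd ℂ) (U i j) • F.ad j) ((∑ j, U i j • F.a j) v) = _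
    rw [expand, Finset.smul_sum]
    refine Finset.sum_congr rfl fun x _ => ?_
    rw [Finset.smul_sum]
    refine Finset.sum_congr rfl fun y _ => ?_
    rw [← mul_smul]
    by_cases hy : U i y = 0
    · simp [hy]
    · rw [hw i y hy]; ring_nf
  simp_rw [h]
  have hU' : Uᴴ * U = 1 := mul_eq_one_comm.mp hU
  rw [Finset.sum_comm]
  refine Finset.sum_congr rfl fun x _ => ?_
  rw [Finset.sum_comm]
  have h5 : ∀ y, ∑ i, ((starRingEnd ℂ) (U i x) * U i y * w y) • F.ad x (F.a y v) =
      ((if x = y then 1 else 0) * w y) • F.ad x (F.a y v) := by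
    intro y
    rw [← Finset.sum_smul, ← Finset.sum_mul]
    congr 2
    have := congrFun (congrFun hU' x) y
    rw [Matrix.mul_apply, Matrix.one_apply] at this
    simpa [Matrix.conjTranspose_apply] using this
  simp_rw [h5]
  simp

end rotation

/-! ### the half lattice -/

/-- A half lattice. -/
def Hp (n : Fin 3 → ℤ) : Prop := 0 < n 0 ∨ (n 0 = 0 ∧ (0 < n 1 ∨ (n 1 = 0 ∧ 0 < n 2)))

instance (n : Fin 3 → ℤ) : Decidable (Hp n) := by unfold Hp; infer_instance

lemma hp_neg (n : Fin 3 → ℤ) (hn : n ≠ 0) : Hp (-n) ↔ ¬ Hp n := by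
  have h : ¬ (n 0 = 0 ∧ n 1 = 0 ∧ n 2 = 0) := by
    rintro ⟨h0, h1, h2⟩
    apply hn
    funext i
    fin_cases i <;> simp [h0, h1, h2]
  unfold Hp
  simp only [Pi.neg_apply]
  omega

lemma wave_neg (L : ℝ) (n : Fin 3 → ℤ) : wave L (-n) = -wave L n := by
  funext j
  simp [wave]

lemma sq_neg' (x : X3) : Pool.Agent.Helper49_Pauli.sq (-x) = Pool.Agent.Helper49_Pauli.sq x := by simp [Pool.Agent.Helper49_Pauli.sq]

lemma dot_neg (x y : X3) : dot (-x) y = -dot x y := by simp [dot]

lemma dot_comm' (x y : X3) : dot x y = dot y x := by simp [dot, mul_comm]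

lemma freq_neg (L : ℝ) (n : Fin 3 → ℤ) : freq L (-n) = freq L n := by
  unfold freq
  rw [wave_neg, sq_neg']

lemma mem_momenta {cut L : ℝ} {n : Fin 3 → ℤ} (h : n ∈ momenta cut L) :
    n ≠ 0 ∧ freq L n < cut := by
  unfold momenta at h
  split_ifs at h with hf
  · simpa using h
  · simp at h

lemma neg_mem_momenta {cut L : ℝ} {n : Fin 3 → ℤ} (h : n ∈ momenta cut L) :
    -n ∈ momenta cut L := by
  unfold momenta at h ⊢
  split_ifs at h ⊢ with hf
  · simp only [Set.Finite.mem_toFinset, Set.mem_ofPred_eq] at h ⊢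
    rw [freq_neg]
    exact ⟨neg_ne_zero.mpr h.1, h.2⟩
  · simp at h

/-- Completeness of the polarization vectors. -/
lemma complete {L : ℝ} (P : Polarization L) (hL : 0 < L) {n : Fin 3 → ℤ} (hn : n ≠ 0) (w : X3)
    (hw : dot (wave L n) w = 0) (j : Fin 3) :
    ∑ l, dot (P.e n l) w * P.e n l j = w j := by
  have hk : wave L n ≠ 0 := by
    intro h
    apply hn
    funext i
    have := congrFun h i
    simp only [wave, Pi.zero_apply, mul_eq_zero, div_eq_zero_iff, OfNat.ofNat_ne_zero,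
      Real.pi_ne_zero, or_false, false_or] at this
    rcases this with h1 | h1
    · exact absurd h1 hL.ne'
    · exact_mod_cast h1
  have hs : 0 < Pool.Agent.Helper49_Pauli.sq (wave L n) := by
    unfold Pool.Agent.Helper49_Pauli.sq
    by_contra hcon
    apply hk
    have h0 : ∑ j, wave L n j ^ 2 = 0 := le_antisymm (not_lt.mp hcon) (by positivity)
    rw [Finset.sum_eq_zero_iff_of_nonneg (fun i _ => by positivity)] at h0
    funext i
    have := h0 i (Finset.mem_univ i)
    simpa using this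
  set r := Real.sqrt (Pool.Agent.Helper49_Pauli.sq (wave L n)) with hr
  have hr0 : 0 < r := Real.sqrt_pos.mpr hs
  have hr2 : r ^ 2 = Pool.Agent.Helper49_Pauli.sq (wave L n) := Real.sq_sqrt hs.le
  have o00 := P.orthonormal n hn 0 0
  have o01 := P.orthonormal n hn 0 1
  have o10 := P.orthonormal n hn 1 0
  have o11 := P.orthonormal n hn 1 1
  have t0 := P.transverse n hn 0
  have t1 := P.transverse n hn 1
  simp only [dot, Fin.sum_univ_three, if_true, Fin.isValue, zero_ne_one, one_ne_zero,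
    if_false] at o00 o01 o10 o11 t0 t1 hw
  simp only [Pool.Agent.Helper49_Pauli.sq, Fin.sum_univ_three] at hr2
  obtain ⟨x, hx⟩ : ∃ x : X3, x = fun j => wave L n j / r := ⟨_, rfl⟩
  have hx' : ∀ j, wave L n j = r * x j := by
    intro j; rw [hx]; field_simp
  rw [hx' 0, hx' 1, hx' 2] at t0 t1 hw hr2
  have t0' : x 0 * P.e n 0 0 + x 1 * P.e n 0 1 + x 2 * P.e n 0 2 = 0 := by
    apply mul_left_cancel₀ hr0.ne'; linear_combination t0
  have t1' : x 0 * P.e n 1 0 + x 1 * P.e n 1 1 + x 2 * P.e n 1 2 = 0 := by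
    apply mul_left_cancel₀ hr0.ne'; linear_combination t1
  have hw' : x 0 * w 0 + x 1 * w 1 + x 2 * w 2 = 0 := by
    apply mul_left_cancel₀ hr0.ne'; linear_combination hw
  have hx1 : x 0 * x 0 + x 1 * x 1 + x 2 * x 2 = 1 := by
    apply mul_left_cancel₀ (pow_pos hr0 2).ne'; linear_combination -hr2
  let A : Matrix (Fin 3) (Fin 3) ℝ := !![x 0, x 1, x 2; P.e n 0 0, P.e n 0 1, P.e n 0 2;
    P.e n 1 0, P.e n 1 1, P.e n 1 2]
  have hA : A * Aᵀ = 1 := by
    ext a b
    fin_cases a <;> fin_cases b <;> simp [A, Matrix.mul_apply, Fin.sum_univ_three] <;> linarith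
  have hA' : Aᵀ * A = 1 := mul_eq_one_comm.mp hA
  have hAw : (Aᵀ * A).mulVec w = w := by rw [hA', Matrix.one_mulVec]
  have h0 := congrFun hAw 0
  have h1 := congrFun hAw 1
  have h2 := congrFun hAw 2
  rw [← Matrix.mulVec_mulVec] at h0 h1 h2
  simp [Matrix.mulVec, dotProduct, Fin.sum_univ_three, A] at h0 h1 h2
  rw [hw'] at h0 h1 h2
  simp only [Fin.sum_univ_two, dot, Fin.sum_univ_three]
  fin_cases j
  · simp only [Fin.zero_eta, Fin.isValue]; linarith
  · simp only [Fin.mk_one, Fin.isValue]; linarith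
  · simp only [Fin.reduceFinMk, Fin.isValue]; linarith

/-- Parseval in the plane orthogonal to the momentum. -/
lemma parseval {L : ℝ} (P : Polarization L) (hL : 0 < L) {n : Fin 3 → ℤ} (hn : n ≠ 0) (w w' : X3)
    (hw : dot (wave L n) w = 0) :
    ∑ l, dot (P.e n l) w * dot (P.e n l) w' = dot w w' := by
  have h := complete P hL hn w hw
  have e : dot w w' = ∑ j, (∑ l, dot (P.e n l) w * P.e n l j) * w' j := by
    unfold dot
    refine Finset.sum_congr rfl fun j _ => ?_
    congr 1
    exact (h j).symm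
  rw [e]
  simp_rw [Finset.sum_mul]
  rw [Finset.sum_comm]
  refine Finset.sum_congr rfl fun l _ => ?_
  rw [show dot (P.e n l) w' = ∑ j, P.e n l j * w' j from rfl, Finset.mul_sum]
  refine Finset.sum_congr rfl fun j _ => ?_
  ring

lemma comp2 {L : ℝ} (hL : 0 < L) (P : Polarization L) {n : Fin 3 → ℤ} (hn : n ≠ 0) (w : X3)
    (hw : dot (wave L n) w = 0) (s c : ℝ) (j : Fin 3) :
    ∑ l, s * dot (P.e n l) w * c * (s * P.e n l j) = s * s * c * w j := by
  rw [← complete P hL hn w hw j, Finset.mul_sum]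
  refine Finset.sum_congr rfl fun l _ => ?_
  ring

lemma comp3 {L : ℝ} (hL : 0 < L) (P : Polarization L) {n : Fin 3 → ℤ} (hn : n ≠ 0) (w : X3)
    (hw : dot (wave L n) w = 0) (s : ℝ) :
    ∑ l, (s * dot (P.e n l) w) ^ 2 = s * s * Pool.Agent.Helper49_Pauli.sq w := by
  have h : Pool.Agent.Helper49_Pauli.sq w = dot w w := by
    unfold Pool.Agent.Helper49_Pauli.sq dot
    exact Finset.sum_congr rfl fun j _ => by ring
  rw [h, ← parseval P hL hn w w hw, Finset.mul_sum]
  refine Finset.sum_congr rfl fun l _ => ?_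
  ring

section construction

variable {cut L : ℝ}

/-- the opposite momentum -/
noncomputable def ng (n : {n : Fin 3 → ℤ // n ∈ momenta cut L}) :
    {n : Fin 3 → ℤ // n ∈ momenta cut L} := ⟨-n.1, neg_mem_momenta n.2⟩

lemma ng_ng (n : {n : Fin 3 → ℤ // n ∈ momenta cut L}) : ng (ng n) = n := by
  apply Subtype.ext; simp [ng]

lemma ng_inj {n m : {n : Fin 3 → ℤ // n ∈ momenta cut L}} (h : ng n = ng m) : n = m := by
  rw [← ng_ng n, h, ng_ng]

/-- phases -/
noncomputable def ph (n : Fin 3 → ℤ) : ℂ := if Hp n then 1 else I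

/-- angles -/
noncomputable def th (n : Fin 3 → ℤ) : ℝ := if Hp n then 0 else Real.pi / 2

lemma ph_conj (n : Fin 3 → ℤ) : ph n * (starRingEnd ℂ) (ph n) = 1 := by
  unfold ph; split_ifs <;> simp

lemma ph_neg {n : Fin 3 → ℤ} (hn : n ≠ 0) :
    ph n * ph (-n) + (starRingEnd ℂ) (ph n) * (starRingEnd ℂ) (ph (-n)) = 0 := by
  unfold ph
  by_cases h : Hp n
  · have h' : ¬ Hp (-n) := by rw [hp_neg n hn]; simpa using h
    simp [h, h']
  · have h' : Hp (-n) := by rw [hp_neg n hn]; exact h
    simp [h, h']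

lemma phase_sum {n : Fin 3 → ℤ} (hn : n ≠ 0) (t : ℝ) :
    ((Real.cos (t - th n) : ℝ) : ℂ) * ph n +
      ((Real.cos (-t - th (-n)) : ℝ) : ℂ) * (starRingEnd ℂ) (ph (-n)) = cexp (I * t) := by
  have e : cexp (I * t) = (Real.cos t : ℝ) + (Real.sin t : ℝ) * I := by
    rw [mul_comm, Complex.exp_mul_I]; simp
  rw [e]
  unfold ph th
  by_cases h : Hp n
  · have h' : ¬ Hp (-n) := by rw [hp_neg n hn]; simpa using h
    simp only [h, h', if_true, if_false]
    rw [show -t - Real.pi / 2 = -(t + Real.pi / 2) by ring, Real.cos_neg, Real.cos_add_pi_div_two]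
    simp
  · have h' : Hp (-n) := by rw [hp_neg n hn]; exact h
    simp only [h, h', if_true, if_false]
    rw [Real.cos_sub_pi_div_two]
    simp
    ring

/-- the diagonal part -/
noncomputable def Dg (i j : Mode cut L) : ℂ := if i = j then ph i.1 else 0

/-- the part exchanging `n` and `-n` -/
noncomputable def Nd (P : Polarization L) (i j : Mode cut L) : ℂ :=
  if ng i.1 = j.1 then (starRingEnd ℂ) (ph i.1) * ((dot (P.e j.1 j.2) (P.e i.1 i.2) : ℝ) : ℂ) else 0

/-- the unitary matrix -/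
noncomputable def U (P : Polarization L) : Matrix (Mode cut L) (Mode cut L) ℂ := fun i j =>
  ((1 / Real.sqrt 2 : ℝ) : ℂ) * (Dg i j + Nd P i j)

lemma mode_ne (i : Mode cut L) : (i.1 : Fin 3 → ℤ) ≠ 0 := (mem_momenta i.1.2).1

lemma transverse' (P : Polarization L) {n : Fin 3 → ℤ} (hn : n ≠ 0) (l : Fin 2) :
    dot (wave L (-n)) (P.e n l) = 0 := by
  rw [wave_neg, dot_neg, P.transverse n hn, neg_zero]

lemma transverse'' (P : Polarization L) {n : Fin 3 → ℤ} (hn : n ≠ 0) (l : Fin 2) :
    dot (wave L n) (P.e (-n) l) = 0 := by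
  have := P.transverse (-n) (neg_ne_zero.mpr hn) l
  rw [wave_neg, dot_neg, neg_eq_zero] at this
  exact this

lemma sum_DD (i i' : Mode cut L) :
    ∑ j, Dg i j * (starRingEnd ℂ) (Dg i' j) = if i = i' then 1 else 0 := by
  unfold Dg
  simp only [ite_mul, zero_mul, Finset.sum_ite_eq, Finset.mem_univ, if_true]
  by_cases h : i = i'
  · subst h; simp [ph_conj]
  · rw [if_neg (fun h' => h h'.symm), if_neg h]; simp

lemma sum_DN (P : Polarization L) (i i' : Mode cut L) :
    ∑ j, Dg i j * (starRingEnd ℂ) (Nd P i' j) = ph i.1 * (starRingEnd ℂ) (Nd P i' i) := by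
  unfold Dg
  simp only [ite_mul, zero_mul, Finset.sum_ite_eq, Finset.mem_univ, if_true]

lemma sum_ND (P : Polarization L) (i i' : Mode cut L) :
    ∑ j, Nd P i j * (starRingEnd ℂ) (Dg i' j) = Nd P i i' * (starRingEnd ℂ) (ph i'.1) := by
  have : ∀ j, Nd P i j * (starRingEnd ℂ) (Dg i' j) =
      if i' = j then Nd P i i' * (starRingEnd ℂ) (ph i'.1) else 0 := by
    intro j
    unfold Dg
    split_ifs with h
    · rw [h]
    · simp
  simp_rw [this]
  simp

lemma sum_NN (hL : 0 < L) (P : Polarization L) (i i' : Mode cut L) :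
    ∑ j, Nd P i j * (starRingEnd ℂ) (Nd P i' j) = if i = i' then 1 else 0 := by
  rw [Fintype.sum_prod_type]
  unfold Nd
  by_cases h1 : i.1 = i'.1
  · rw [Finset.sum_eq_single (ng i.1)]
    · have hn := mode_ne i
      have hn' : (-(i.1 : Fin 3 → ℤ)) ≠ 0 := neg_ne_zero.mpr hn
      have hp := parseval P hL hn' (P.e i.1 i.2) (P.e i'.1 i'.2) (transverse' P hn _)
      have e : ∀ l : Fin 2, (starRingEnd ℂ) (ph i.1) *
          ((dot (P.e (ng i.1) l) (P.e i.1 i.2) : ℝ) : ℂ) *
          (starRingEnd ℂ) ((starRingEnd ℂ) (ph i'.1) *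
            ((dot (P.e (ng i.1) l) (P.e i'.1 i'.2) : ℝ) : ℂ)) =
          ((dot (P.e (-(i.1 : Fin 3 → ℤ)) l) (P.e i.1 i.2) *
            dot (P.e (-(i.1 : Fin 3 → ℤ)) l) (P.e i'.1 i'.2) : ℝ) : ℂ) := by
        intro l
        rw [map_mul, Complex.conj_conj, Complex.conj_ofReal, h1]
        have := ph_conj i'.1
        simp only [ng]
        push_cast
        linear_combination (((dot (P.e (-(i'.1 : Fin 3 → ℤ)) l) (P.e i'.1 i.2) : ℝ) : ℂ) *
          ((dot (P.e (-(i'.1 : Fin 3 → ℤ)) l) (P.e i'.1 i'.2) : ℝ) : ℂ)) * this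
      have e' : ∀ l : Fin 2, (if ng i.1 = (ng i.1, l).1 then (starRingEnd ℂ) (ph i.1) *
          ((dot (P.e (ng i.1, l).1 (ng i.1, l).2) (P.e i.1 i.2) : ℝ) : ℂ) else 0) *
          (starRingEnd ℂ) (if ng i'.1 = (ng i.1, l).1 then (starRingEnd ℂ) (ph i'.1) *
            ((dot (P.e (ng i.1, l).1 (ng i.1, l).2) (P.e i'.1 i'.2) : ℝ) : ℂ) else 0) =
          ((dot (P.e (-(i.1 : Fin 3 → ℤ)) l) (P.e i.1 i.2) *
            dot (P.e (-(i.1 : Fin 3 → ℤ)) l) (P.e i'.1 i'.2) : ℝ) : ℂ) := by
        intro l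
        rw [if_pos rfl, if_pos (by rw [h1])]
        exact e l
      refine (Finset.sum_congr rfl fun l _ => e' l).trans ?_
      rw [← Complex.ofReal_sum, hp, h1, P.orthonormal _ (mode_ne i')]
      by_cases h2 : i.2 = i'.2
      · rw [if_pos h2, if_pos (Prod.ext h1 h2)]; simp
      · rw [if_neg h2, if_neg (fun h => h2 (congrArg Prod.snd h))]; simp
    · intro n _ hn
      refine Finset.sum_eq_zero fun l _ => ?_
      rw [if_neg (fun h => hn h.symm), zero_mul]
    · intro h; exact absurd (Finset.mem_univ _) h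
  · rw [if_neg (fun h => h1 (congrArg Prod.fst h))]
    refine Finset.sum_eq_zero fun n _ => Finset.sum_eq_zero fun l _ => ?_
    by_cases h2 : ng i.1 = n
    · have h3 : ¬ ng i'.1 = n := fun h3 => h1 (ng_inj (h2.trans h3.symm))
      simp [h3]
    · simp [h2]

lemma cross (P : Polarization L) (i i' : Mode cut L) :
    ph i.1 * (starRingEnd ℂ) (Nd P i' i) + Nd P i i' * (starRingEnd ℂ) (ph i'.1) = 0 := by
  unfold Nd
  by_cases h : ng i.1 = i'.1
  · have h' : ng i'.1 = i.1 := by rw [← h, ng_ng]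
    rw [if_pos h, if_pos h', map_mul, Complex.conj_conj, Complex.conj_ofReal,
      dot_comm' (P.e i'.1 i'.2)]
    have h3 : (i'.1 : Fin 3 → ℤ) = -(i.1 : Fin 3 → ℤ) := by rw [← h]; rfl
    have := ph_neg (mode_ne i)
    rw [← h3] at this
    linear_combination ((dot (P.e i.1 i.2) (P.e i'.1 i'.2) : ℝ) : ℂ) * this
  · have h' : ¬ ng i'.1 = i.1 := fun h2 => h (by rw [← h2, ng_ng])
    rw [if_neg h, if_neg h']
    simp

lemma unitary (hL : 0 < L) (P : Polarization L) : (U P : Matrix (Mode cut L) (Mode cut L) ℂ) *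
    (U P)ᴴ = 1 := by
  ext i i'
  rw [Matrix.mul_apply, Matrix.one_apply]
  simp only [Matrix.conjTranspose_apply, U]
  have hs : ((1 / Real.sqrt 2 : ℝ) : ℂ) * ((1 / Real.sqrt 2 : ℝ) : ℂ) = 1 / 2 := by
    rw [← Complex.ofReal_mul]
    have : (1 / Real.sqrt 2) * (1 / Real.sqrt 2) = 1 / 2 := by
      rw [div_mul_div_comm, Real.mul_self_sqrt (by norm_num)]; norm_num
    rw [this]; simp
  have e : ∀ j, ((1 / Real.sqrt 2 : ℝ) : ℂ) * (Dg i j + Nd P i j) *
      star (((1 / Real.sqrt 2 : ℝ) : ℂ) * (Dg i' j + Nd P i' j)) =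
      1 / 2 * (Dg i j * (starRingEnd ℂ) (Dg i' j) + Dg i j * (starRingEnd ℂ) (Nd P i' j) +
        Nd P i j * (starRingEnd ℂ) (Dg i' j) + Nd P i j * (starRingEnd ℂ) (Nd P i' j)) := by
    intro j
    rw [show star (((1 / Real.sqrt 2 : ℝ) : ℂ) * (Dg i' j + Nd P i' j)) =
      ((1 / Real.sqrt 2 : ℝ) : ℂ) * ((starRingEnd ℂ) (Dg i' j) + (starRingEnd ℂ) (Nd P i' j)) by
        rw [← starRingEnd_apply, map_mul, Complex.conj_ofReal, map_add]]
    rw [← hs]; ring
  simp_rw [e]
  rw [← Finset.mul_sum, Finset.sum_add_distrib, Finset.sum_add_distrib, Finset.sum_add_distrib,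
    sum_DD, sum_DN, sum_ND, sum_NN hL]
  have := cross P i i'
  split_ifs
  · linear_combination (1 / 2 : ℂ) * this
  · linear_combination (1 / 2 : ℂ) * this

lemma sqn_wave_pos (hL : 0 < L) {n : Fin 3 → ℤ} (hn : n ≠ 0) : 0 < Pool.Agent.Helper49_Pauli.sq (wave L n) := by
  unfold Pool.Agent.Helper49_Pauli.sq
  by_contra hcon
  apply hn
  have h0 : ∑ j, wave L n j ^ 2 = 0 := le_antisymm (not_lt.mp hcon) (by positivity)
  rw [Finset.sum_eq_zero_iff_of_nonneg (fun i _ => by positivity)] at h0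
  funext i
  have := h0 i (Finset.mem_univ i)
  simp only [wave, ne_eq, OfNat.ofNat_ne_zero, not_false_eq_true, pow_eq_zero_iff, mul_eq_zero,
    div_eq_zero_iff, Real.pi_ne_zero, or_false, false_or] at this
  rcases this with h1 | h1
  · exact absurd h1 hL.ne'
  · exact_mod_cast h1

/-- coefficient of the real mode `i` in the potential -/
noncomputable def cf (P : Polarization L) (x : X3) (j : Fin 3) (i : Mode cut L) : ℝ :=
  Real.cos (dot (wave L i.1) x - th i.1) * (Real.sqrt (2 / L ^ 3) * P.e i.1 i.2 j) /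
    Real.sqrt (2 * Real.sqrt (Pool.Agent.Helper49_Pauli.sq (wave L i.1)))

lemma norm_const (hL : 0 < L) {r : ℝ} (hr : 0 < r) :
    1 / Real.sqrt 2 * (Real.sqrt (2 / L ^ 3) / Real.sqrt (2 * r)) = 1 / Real.sqrt (2 * L ^ 3 * r) := by
  rw [← Real.sqrt_div (by positivity), one_div, one_div, ← Real.sqrt_inv, ← Real.sqrt_inv,
    ← Real.sqrt_mul (by positivity)]
  congr 1
  field_simp

lemma coef_sum (hL : 0 < L) (P : Polarization L) (x : X3) (j : Fin 3) (m : Mode cut L) :
    ∑ i, ((cf P x j i : ℝ) : ℂ) * U P i m =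
      ((P.e m.1 m.2 j / Real.sqrt (2 * L ^ 3 * freq L m.1) : ℝ) : ℂ) *
        cexp (I * (dot (wave L m.1) x : ℂ)) := by
  have hm := mode_ne m
  have hm' : (-(m.1 : Fin 3 → ℤ)) ≠ 0 := neg_ne_zero.mpr hm
  have h1 : ∑ i, ((cf P x j i : ℝ) : ℂ) * Dg i m = ((cf P x j m : ℝ) : ℂ) * ph m.1 := by
    have : ∀ i, ((cf P x j i : ℝ) : ℂ) * Dg i m =
        if i = m then ((cf P x j m : ℝ) : ℂ) * ph m.1 else 0 := by
      intro i
      unfold Dg
      split_ifs with h
      · rw [h]
      · simp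
    simp_rw [this]
    simp
  have h2 : ∑ i, ((cf P x j i : ℝ) : ℂ) * Nd P i m =
      (starRingEnd ℂ) (ph (-(m.1 : Fin 3 → ℤ))) *
        (((Real.cos (-(dot (wave L m.1) x) - th (-(m.1 : Fin 3 → ℤ))) *
          (Real.sqrt (2 / L ^ 3) * P.e m.1 m.2 j) /
            Real.sqrt (2 * Real.sqrt (Pool.Agent.Helper49_Pauli.sq (wave L m.1)))) : ℝ) : ℂ) := by
    rw [Fintype.sum_prod_type, Finset.sum_eq_single (ng m.1)]
    · have e : ∀ l : Fin 2, ((cf P x j (ng m.1, l) : ℝ) : ℂ) * Nd P (ng m.1, l) m =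
          (starRingEnd ℂ) (ph (-(m.1 : Fin 3 → ℤ))) *
          (((Real.cos (-(dot (wave L m.1) x) - th (-(m.1 : Fin 3 → ℤ))) * Real.sqrt (2 / L ^ 3) /
            Real.sqrt (2 * Real.sqrt (Pool.Agent.Helper49_Pauli.sq (wave L m.1)))) *
            (dot (P.e (-(m.1 : Fin 3 → ℤ)) l) (P.e m.1 m.2) * P.e (-(m.1 : Fin 3 → ℤ)) l j) : ℝ)
              : ℂ) := by
        intro l
        unfold Nd cf
        rw [if_pos (ng_ng _)]
        have e1 : ((ng m.1 : {n : Fin 3 → ℤ // n ∈ momenta cut L}) : Fin 3 → ℤ) =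
          -(m.1 : Fin 3 → ℤ) := rfl
        simp only [e1]
        rw [wave_neg, sq_neg', dot_neg, dot_comm' (P.e m.1 m.2)]
        push_cast
        ring
      simp_rw [e]
      rw [← Finset.mul_sum, ← Complex.ofReal_sum, ← Finset.mul_sum,
        complete P hL hm' (P.e m.1 m.2) (transverse' P hm _) j]
      congr 2
      ring
    · intro n _ hn
      refine Finset.sum_eq_zero fun l _ => ?_
      unfold Nd
      rw [if_neg (fun h => hn (by rw [← h]; exact (ng_ng _).symm)), mul_zero]
    · intro h; exact absurd (Finset.mem_univ _) h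
  have h3 : ∑ i, ((cf P x j i : ℝ) : ℂ) * U P i m = ((1 / Real.sqrt 2 : ℝ) : ℂ) *
      (∑ i, ((cf P x j i : ℝ) : ℂ) * Dg i m + ∑ i, ((cf P x j i : ℝ) : ℂ) * Nd P i m) := by
    rw [← Finset.sum_add_distrib, Finset.mul_sum]
    refine Finset.sum_congr rfl fun i _ => ?_
    unfold U
    ring
  rw [h3, h1, h2, ← phase_sum hm (dot (wave L m.1) x)]
  have hr : 0 < Real.sqrt (Pool.Agent.Helper49_Pauli.sq (wave L m.1)) := Real.sqrt_pos.mpr (sqn_wave_pos hL hm)
  have hc := norm_const hL hr
  have hf : freq L m.1 = Real.sqrt (Pool.Agent.Helper49_Pauli.sq (wave L m.1)) := rfl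
  have e1 : ((P.e m.1 m.2 j / Real.sqrt (2 * L ^ 3 * freq L m.1) : ℝ) : ℂ) =
      ((P.e m.1 m.2 j : ℝ) : ℂ) * (((1 / Real.sqrt 2 : ℝ) : ℂ) *
        (((Real.sqrt (2 / L ^ 3) : ℝ) : ℂ) /
          ((Real.sqrt (2 * Real.sqrt (Pool.Agent.Helper49_Pauli.sq (wave L m.1))) : ℝ) : ℂ))) := by
    rw [hf, div_eq_mul_one_div, ← hc]
    push_cast
    ring
  rw [e1]
  unfold cf
  push_cast
  ring

lemma U_freq (P : Polarization L) (i j : Mode cut L) (h : U P i j ≠ 0) :
    freq L i.1 = freq L j.1 := by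
  by_cases h1 : i = j
  · rw [h1]
  · by_cases h2 : ng i.1 = j.1
    · rw [← h2]
      exact (freq_neg L _).symm
    · exfalso
      apply h
      unfold U Dg Nd
      rw [if_neg h1, if_neg h2]
      simp

/-- half of an even sum -/
lemma half_sum (h : (Fin 3 → ℤ) → ℝ) (he : ∀ n, h (-n) = h n) :
    (∑ n ∈ momenta cut L, if Hp n then h n else 0) = 1 / 2 * ∑ n ∈ momenta cut L, h n ∧
    (∑ n ∈ momenta cut L, if Hp n then 0 else h n) = 1 / 2 * ∑ n ∈ momenta cut L, h n := by
  have h1 : (∑ n ∈ momenta cut L, if Hp n then h n else 0) =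
      ∑ n ∈ momenta cut L, if Hp n then 0 else h n := by
    refine Finset.sum_nbij' (fun n => -n) (fun n => -n) ?_ ?_ ?_ ?_ ?_
    · intro n hn; exact neg_mem_momenta hn
    · intro n hn; exact neg_mem_momenta hn
    · intro n _; simp
    · intro n _; simp
    · intro n hn
      have h2 := hp_neg n (mem_momenta hn).1
      simp only [h2, he]
      by_cases h3 : Hp n <;> simp [h3]
  have h2 : (∑ n ∈ momenta cut L, if Hp n then h n else 0) +
      (∑ n ∈ momenta cut L, if Hp n then 0 else h n) = ∑ n ∈ momenta cut L, h n := by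
    rw [← Finset.sum_add_distrib]
    refine Finset.sum_congr rfl fun n _ => ?_
    by_cases h3 : Hp n <;> simp [h3]
  constructor <;> linarith

lemma sum_mode (f : (Fin 3 → ℤ) → Fin 2 → ℝ) :
    ∑ i : Mode cut L, f i.1 i.2 = ∑ n ∈ momenta cut L, ∑ l, f n l := by
  rw [Fintype.sum_prod_type, ← Finset.sum_coe_sort (momenta cut L)]

end construction

theorem half : HalfStatement := by
  intro cut L hL P D _ _ F
  have hs2 : Real.sqrt (2 / L ^ 3) * Real.sqrt (2 / L ^ 3) = 2 / L ^ 3 :=
    Real.mul_self_sqrt (by positivity)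
  refine ⟨Mode cut L, inferInstance, inferInstance, rot F (U P) (unitary hL P),
    fun i => wave L i.1, fun i j => Real.sqrt (2 / L ^ 3) * P.e i.1 i.2 j, fun i => th i.1,
    ?_, ?_, ?_, ?_, ?_⟩
  · intro i
    refine ⟨sqn_wave_pos hL (mode_ne i), ?_⟩
    exact (mem_momenta i.1.2).2
  · intro x j v
    have e1 : ∀ i, (rot F (U P) (unitary hL P)).a i v = ∑ m, U P i m • F.a m v := by
      intro i
      change (∑ m, U P i m • F.a m) v = _
      rw [LinearMap.sum_apply]; rfl
    have e2 : ∀ i, (rot F (U P) (unitary hL P)).ad i v =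
        ∑ m, (starRingEnd ℂ) (U P i m) • F.ad m v := by
      intro i
      change (∑ m, (starRingEnd ℂ) (U P i m) • F.ad m) v = _
      rw [LinearMap.sum_apply]; rfl
    have e3 : ∀ i : Mode cut L, ((Real.cos (dot (wave L i.1) x - th i.1) *
        (Real.sqrt (2 / L ^ 3) * P.e i.1 i.2 j) /
          Real.sqrt (2 * Real.sqrt (Pool.Agent.Helper49_Pauli.sq (wave L i.1))) : ℝ) : ℂ) = ((cf P x j i : ℝ) : ℂ) :=
      fun i => rfl
    simp_rw [e3, e1, e2, smul_add, Finset.smul_sum, ← mul_smul]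
    rw [Finset.sum_add_distrib, Finset.sum_comm, Finset.sum_comm (f := fun (i m : Mode cut L) =>
      (((cf P x j i : ℝ) : ℂ) * (starRingEnd ℂ) (U P i m)) • F.ad m v)]
    rw [← Finset.sum_add_distrib]
    unfold potential
    refine Finset.sum_congr rfl fun m _ => ?_
    rw [← Finset.sum_smul, ← Finset.sum_smul, coef_sum hL, smul_add, ← mul_smul, ← mul_smul]
    congr 2
    have := congrArg (starRingEnd ℂ) (coef_sum (cut := cut) hL P x j m)
    rw [map_sum] at this
    simp_rw [map_mul, Complex.conj_ofReal] at this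
    rw [this]
    congr 1
    rw [← Complex.exp_conj, map_mul, Complex.conj_ofReal, Complex.conj_I, neg_mul]
  · intro v
    exact (rot_energy F (U P) (unitary hL P) (fun i => (freq L i.1 : ℂ))
      (fun i j h => by rw [U_freq P i j h]) v).symm
  · intro f _
    have h1 := sum_mode (cut := cut) (L := L) (fun n l =>
      Pool.Agent.Helper49_Pauli.sq (fun j => Real.sqrt (2 / L ^ 3) * P.e n l j) * f (wave L n))
    refine h1.trans ?_
    rw [Finset.mul_sum]
    refine Finset.sum_congr rfl fun n hn => ?_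
    have hn0 := (mem_momenta hn).1
    have h2 : ∀ l, Pool.Agent.Helper49_Pauli.sq (fun j => Real.sqrt (2 / L ^ 3) * P.e n l j) = 2 / L ^ 3 := by
      intro l
      have h3 := P.orthonormal n hn0 l l
      rw [if_pos rfl] at h3
      unfold Pool.Agent.Helper49_Pauli.sq
      have h4 : ∀ j, (Real.sqrt (2 / L ^ 3) * P.e n l j) ^ 2 =
          2 / L ^ 3 * (P.e n l j * P.e n l j) := by
        intro j
        rw [mul_pow, pow_two, hs2, pow_two]
      simp_rw [h4]
      rw [← Finset.mul_sum]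
      unfold dot at h3
      rw [h3, mul_one]
    simp_rw [h2]
    simp
    ring
  · intro A B hA hB hAt hBt
    refine ⟨fun i => if Hp i.1 then Real.sqrt (2 / L ^ 3) * dot (P.e i.1 i.2) (A (wave L i.1))
      else -(Real.sqrt (2 / L ^ 3) * dot (P.e i.1 i.2) (B (wave L i.1))), ?_, ?_⟩
    · intro x j
      have h1 := sum_mode (cut := cut) (L := L) (fun n l =>
        (if Hp n then Real.sqrt (2 / L ^ 3) * dot (P.e n l) (A (wave L n))
          else -(Real.sqrt (2 / L ^ 3) * dot (P.e n l) (B (wave L n)))) *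
        Real.cos (dot (wave L n) x - th n) * (Real.sqrt (2 / L ^ 3) * P.e n l j))
      refine h1.trans ?_
      have h2 : ∀ n ∈ momenta cut L, (∑ l, (if Hp n then Real.sqrt (2 / L ^ 3) *
          dot (P.e n l) (A (wave L n)) else -(Real.sqrt (2 / L ^ 3) *
            dot (P.e n l) (B (wave L n)))) *
          Real.cos (dot (wave L n) x - th n) * (Real.sqrt (2 / L ^ 3) * P.e n l j)) =
          (if Hp n then 2 / L ^ 3 * (A (wave L n) j * Real.cos (dot (wave L n) x)) else 0) +
          (if Hp n then 0 else -(2 / L ^ 3 * (B (wave L n) j * Real.sin (dot (wave L n) x)))) := by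
        intro n hn
        have hn0 := (mem_momenta hn).1
        by_cases h : Hp n
        · simp only [h, if_true, add_zero, th, sub_zero]
          rw [comp2 hL P hn0 (A (wave L n)) (hAt _), hs2]
          ring
        · simp only [h, if_false, zero_add, th]
          have h3 : ∀ l, -(Real.sqrt (2 / L ^ 3) * dot (P.e n l) (B (wave L n))) *
              Real.cos (dot (wave L n) x - Real.pi / 2) * (Real.sqrt (2 / L ^ 3) * P.e n l j) =
              Real.sqrt (2 / L ^ 3) * dot (P.e n l) (B (wave L n)) *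
              (-Real.sin (dot (wave L n) x)) * (Real.sqrt (2 / L ^ 3) * P.e n l j) := by
            intro l
            rw [Real.cos_sub_pi_div_two]; ring
          simp_rw [h3]
          rw [comp2 hL P hn0 (B (wave L n)) (hBt _), hs2]
          ring
      rw [Finset.sum_congr rfl h2, Finset.sum_add_distrib,
        (half_sum (cut := cut) (L := L)
          (fun n => 2 / L ^ 3 * (A (wave L n) j * Real.cos (dot (wave L n) x)))
          (fun n => by simp only [wave_neg, hA, dot_neg, Real.cos_neg])).1,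
        (half_sum (cut := cut) (L := L)
          (fun n => -(2 / L ^ 3 * (B (wave L n) j * Real.sin (dot (wave L n) x))))
          (fun n => by simp only [wave_neg, hB, dot_neg, Real.sin_neg, Pi.neg_apply]; ring)).2,
        Finset.mul_sum, Finset.mul_sum, Finset.mul_sum, ← Finset.sum_add_distrib]
      refine Finset.sum_congr rfl fun n _ => ?_
      ring
    · have h1 := sum_mode (cut := cut) (L := L) (fun n l =>
        (if Hp n then Real.sqrt (2 / L ^ 3) * dot (P.e n l) (A (wave L n))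
          else -(Real.sqrt (2 / L ^ 3) * dot (P.e n l) (B (wave L n)))) ^ 2)
      refine h1.trans ?_
      have h2 : ∀ n ∈ momenta cut L, (∑ l, (if Hp n then Real.sqrt (2 / L ^ 3) *
          dot (P.e n l) (A (wave L n)) else -(Real.sqrt (2 / L ^ 3) *
            dot (P.e n l) (B (wave L n)))) ^ 2) =
          (if Hp n then 2 / L ^ 3 * Pool.Agent.Helper49_Pauli.sq (A (wave L n)) else 0) +
          (if Hp n then 0 else 2 / L ^ 3 * Pool.Agent.Helper49_Pauli.sq (B (wave L n))) := by
        intro n hn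
        have hn0 := (mem_momenta hn).1
        by_cases h : Hp n
        · simp only [h, if_true, add_zero]
          rw [comp3 hL P hn0 (A (wave L n)) (hAt _), hs2]
        · simp only [h, if_false, zero_add, neg_sq]
          rw [comp3 hL P hn0 (B (wave L n)) (hBt _), hs2]
      rw [Finset.sum_congr rfl h2, Finset.sum_add_distrib,
        (half_sum (cut := cut) (L := L) (fun n => 2 / L ^ 3 * Pool.Agent.Helper49_Pauli.sq (A (wave L n)))
          (fun n => by simp only [wave_neg, hA])).1,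
        (half_sum (cut := cut) (L := L) (fun n => 2 / L ^ 3 * Pool.Agent.Helper49_Pauli.sq (B (wave L n)))
          (fun n => by simp only [wave_neg, hB, sq_neg'])).2,
        Finset.mul_sum, Finset.mul_sum, Finset.mul_sum, ← Finset.sum_add_distrib]
      refine Finset.sum_congr rfl fun n _ => ?_
      ring

end Pool.Agent.Helper75_Pauli.Half
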