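import Pool.Agent.Helper49_Pauli.Interface

/-!
# POLY: polynomials are dense near squeezed Gaussians
-/

open MeasureTheory ProbabilityTheory

set_option linter.unusedSectionVars false

namespace Pool.Agent.Helper75_Pauli

open Pool.Agent.Helper49_Pauli

variable {ι : Type} [Fintype ι]

/-- evaluation at a vector -/
noncomputable abbrev ev (y : EuclideanSpace ℝ ι) (p : MvPolynomial ι ℝ) : ℝ :=
  MvPolynomial.eval (fun i => y i) p

lemma abs_coord_le (y : EuclideanSpace ℝ ι) (i : ι) : |y i| ≤ ‖y‖ := by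
  have := EuclideanSpace.norm_eq y
  rw [this, ← Real.sqrt_sq_eq_abs]
  apply Real.sqrt_le_sqrt
  have h : ‖y i‖ ^ 2 ≤ ∑ j, ‖y j‖ ^ 2 :=
    Finset.single_le_sum (f := fun j => ‖y j‖ ^ 2) (fun j _ => by positivity) (Finset.mem_univ i)
  simpa [Real.norm_eq_abs, sq_abs] using h

/-- polynomial growth -/
lemma growth (p : MvPolynomial ι ℝ) :
    ∃ A : ℝ, ∃ m : ℕ, 0 ≤ A ∧ ∀ y : EuclideanSpace ℝ ι, |ev y p| ≤ A * (1 + ‖y‖ ^ 2) ^ m := by
  induction p using MvPolynomial.induction_on with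
  | C a => exact ⟨|a|, 0, abs_nonneg _, fun y => by simp⟩
  | add p q hp hq =>
    obtain ⟨A, m, hA, hA'⟩ := hp
    obtain ⟨B, n, hB, hB'⟩ := hq
    refine ⟨A + B, m + n, by positivity, fun y => ?_⟩
    have h1 : (1 : ℝ) ≤ 1 + ‖y‖ ^ 2 := by nlinarith [sq_nonneg ‖y‖]
    have h2 : (1 + ‖y‖ ^ 2) ^ m ≤ (1 + ‖y‖ ^ 2) ^ (m + n) := pow_le_pow_right₀ h1 (by omega)
    have h3 : (1 + ‖y‖ ^ 2) ^ n ≤ (1 + ‖y‖ ^ 2) ^ (m + n) := pow_le_pow_right₀ h1 (by omega)
    calc |ev y (p + q)| ≤ |ev y p| + |ev y q| := by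
          simp only [ev, map_add]; exact abs_add_le _ _
      _ ≤ A * (1 + ‖y‖ ^ 2) ^ m + B * (1 + ‖y‖ ^ 2) ^ n := add_le_add (hA' y) (hB' y)
      _ ≤ A * (1 + ‖y‖ ^ 2) ^ (m + n) + B * (1 + ‖y‖ ^ 2) ^ (m + n) := by gcongr
      _ = (A + B) * (1 + ‖y‖ ^ 2) ^ (m + n) := by ring
  | mul_X p i hp =>
    obtain ⟨A, m, hA, hA'⟩ := hp
    refine ⟨A, m + 1, hA, fun y => ?_⟩
    have h1 : |y i| ≤ 1 + ‖y‖ ^ 2 := by
      have := abs_coord_le y i
      nlinarith [sq_nonneg (‖y‖ - 1), norm_nonneg y]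
    calc |ev y (p * MvPolynomial.X i)| = |ev y p| * |y i| := by
          simp [ev, abs_mul]
      _ ≤ (A * (1 + ‖y‖ ^ 2) ^ m) * (1 + ‖y‖ ^ 2) := by
          gcongr
          exact hA' y
      _ = A * (1 + ‖y‖ ^ 2) ^ (m + 1) := by ring

/-- truncated exponential -/
noncomputable def tr (N : ℕ) (w : ℝ) : ℝ := ∑ k ∈ Finset.range N, w ^ k / (k.factorial : ℝ)

lemma abs_tr_le (N : ℕ) (w : ℝ) : |tr N w| ≤ Real.exp |w| := by
  unfold tr
  calc |∑ k ∈ Finset.range N, w ^ k / (k.factorial : ℝ)|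
      ≤ ∑ k ∈ Finset.range N, |w ^ k / (k.factorial : ℝ)| := Finset.abs_sum_le_sum_abs _ _
    _ = ∑ k ∈ Finset.range N, |w| ^ k / (k.factorial : ℝ) := by
        refine Finset.sum_congr rfl fun k _ => ?_
        rw [abs_div, abs_pow, abs_of_nonneg (by positivity : (0 : ℝ) ≤ (k.factorial : ℝ))]
    _ ≤ Real.exp |w| := Real.sum_le_exp_of_nonneg (abs_nonneg _) _

lemma abs_tr_sub_le (N : ℕ) (w : ℝ) : |tr N w - Real.exp w| ≤ 2 * Real.exp |w| := by
  have h1 := abs_tr_le N w
  have h2 : |Real.exp w| ≤ Real.exp |w| := by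
    rw [abs_of_pos (Real.exp_pos _)]
    exact Real.exp_le_exp.mpr (le_abs_self _)
  calc |tr N w - Real.exp w| ≤ |tr N w| + |Real.exp w| := abs_sub _ _
    _ ≤ _ := by linarith

lemma tendsto_tr (w : ℝ) :
    Filter.Tendsto (fun N => tr N w) Filter.atTop (nhds (Real.exp w)) := by
  have := (NormedSpace.expSeries_div_hasSum_exp (𝔸 := ℝ) w).tendsto_sum_nat
  rw [← Real.exp_eq_exp_ℝ] at this
  exact this

lemma continuous_ev (p : MvPolynomial ι ℝ) :
    Continuous (fun y : EuclideanSpace ℝ ι => ev y p) := by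
  have h := MvPolynomial.continuous_eval p
  exact h.comp (by fun_prop)

/-- truncated exponential of a polynomial -/
noncomputable def trP (N : ℕ) (d : ℝ) (z : MvPolynomial ι ℝ) : MvPolynomial ι ℝ :=
  ∑ k ∈ Finset.range N, MvPolynomial.C (d ^ k / (k.factorial : ℝ)) * z ^ k

lemma ev_trP (N : ℕ) (d : ℝ) (z : MvPolynomial ι ℝ) (y : EuclideanSpace ℝ ι) :
    ev y (trP N d z) = tr N (d * ev y z) := by
  simp only [ev, trP, tr, map_sum, map_mul, MvPolynomial.eval_C, map_pow]
  refine Finset.sum_congr rfl fun k _ => ?_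
  rw [mul_pow]; ring

variable [DecidableEq ι]

lemma pderiv_trP (N : ℕ) (d : ℝ) (z : MvPolynomial ι ℝ) (i : ι) :
    MvPolynomial.pderiv i (trP (N + 1) d z) =
      MvPolynomial.C d * MvPolynomial.pderiv i z * trP N d z := by
  unfold trP
  rw [map_sum, Finset.sum_range_succ', Finset.mul_sum]
  have h0 : MvPolynomial.pderiv i (MvPolynomial.C (d ^ 0 / ((0 : ℕ).factorial : ℝ)) * z ^ 0) = 0 := by
    simp
  rw [h0, add_zero]
  refine Finset.sum_congr rfl fun k _ => ?_
  have hk : ((k + 1 : ℕ) : ℝ) ≠ 0 := by positivity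
  have hk' : (k.factorial : ℝ) ≠ 0 := by positivity
  have e1 : d ^ (k + 1) / ((k + 1).factorial : ℝ) * ((k + 1 : ℕ) : ℝ) =
      d * (d ^ k / (k.factorial : ℝ)) := by
    rw [Nat.factorial_succ]; push_cast at hk ⊢; field_simp; ring
  rw [Derivation.leibniz, MvPolynomial.pderiv_C, smul_zero, add_zero, Derivation.leibniz_pow]
  simp only [Nat.add_sub_cancel, smul_eq_mul, nsmul_eq_mul]
  have e2 : (((k + 1 : ℕ) : MvPolynomial ι ℝ)) = MvPolynomial.C (((k + 1 : ℕ) : ℝ)) := by
    simp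
  rw [e2]
  calc MvPolynomial.C (d ^ (k + 1) / ((k + 1).factorial : ℝ)) *
        (MvPolynomial.C ((k + 1 : ℕ) : ℝ) * (z ^ k * MvPolynomial.pderiv i z))
      = MvPolynomial.C (d ^ (k + 1) / ((k + 1).factorial : ℝ) * ((k + 1 : ℕ) : ℝ)) *
        (z ^ k * MvPolynomial.pderiv i z) := by rw [MvPolynomial.C_mul]; ring
    _ = _ := by rw [e1, MvPolynomial.C_mul]; ring

/-- The weighted Sobolev integrand of `p - P exp(s z)`. -/
noncomputable def err (J : ℕ) (z : MvPolynomial ι ℝ) (s : ℝ) (p P : MvPolynomial ι ℝ)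
    (y : EuclideanSpace ℝ ι) : ℝ :=
  (1 + ‖y‖ ^ 2) ^ J *
    ((ev y p - ev y P * Real.exp (s * ev y z)) ^ 2 +
      ∑ i, (ev y (MvPolynomial.pderiv i p) -
        ev y (MvPolynomial.pderiv i P + MvPolynomial.C s * P * MvPolynomial.pderiv i z) *
          Real.exp (s * ev y z)) ^ 2)

lemma err_nonneg (J : ℕ) (z : MvPolynomial ι ℝ) (s : ℝ) (p P : MvPolynomial ι ℝ)
    (y : EuclideanSpace ℝ ι) : 0 ≤ err J z s p P y := by
  unfold err; positivity

lemma continuous_err (J : ℕ) (z : MvPolynomial ι ℝ) (s : ℝ) (p P : MvPolynomial ι ℝ) :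
    Continuous (err J z s p P) := by
  unfold err
  have hz := continuous_ev z
  have hp := continuous_ev p
  have hP := continuous_ev P
  have h1 : ∀ i, Continuous (fun y : EuclideanSpace ℝ ι => ev y (MvPolynomial.pderiv i p)) :=
    fun i => continuous_ev _
  have h2 : ∀ i, Continuous (fun y : EuclideanSpace ℝ ι =>
      ev y (MvPolynomial.pderiv i P + MvPolynomial.C s * P * MvPolynomial.pderiv i z)) :=
    fun i => continuous_ev _
  have he : Continuous (fun y : EuclideanSpace ℝ ι => Real.exp (s * ev y z)) :=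
    Real.continuous_exp.comp (continuous_const.mul hz)
  refine Continuous.mul (by fun_prop) (Continuous.add ?_ ?_)
  · exact (hp.sub (hP.mul he)).pow 2
  · exact continuous_finsetSum _ fun i _ => ((h1 i).sub ((h2 i).mul he)).pow 2

/-- approximability at time `s` -/
def Appr (z : MvPolynomial ι ℝ) (s : ℝ) : Prop :=
  ∀ (P : MvPolynomial ι ℝ) (J : ℕ) (ε : ℝ), 0 < ε → ∃ p : MvPolynomial ι ℝ,
    ∫⁻ y, ENNReal.ofReal (err J z s p P y) ∂stdGaussian (EuclideanSpace ℝ ι) < ENNReal.ofReal ε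

lemma appr_zero (z : MvPolynomial ι ℝ) : Appr z 0 := by
  intro P J ε hε
  refine ⟨P, ?_⟩
  have : ∀ y, err J z 0 P P y = 0 := by
    intro y
    simp [err, ev]
  simp [this, hε]

/-- the difference of two times -/
noncomputable def diff (J : ℕ) (z : MvPolynomial ι ℝ) (s d : ℝ) (N : ℕ) (P : MvPolynomial ι ℝ)
    (y : EuclideanSpace ℝ ι) : ℝ :=
  (1 + ‖y‖ ^ 2) ^ J *
    ((ev y (P * trP (N + 1) d z) * Real.exp (s * ev y z) - ev y P * Real.exp ((s + d) * ev y z)) ^ 2 +
      ∑ i, (ev y (MvPolynomial.pderiv i (P * trP (N + 1) d z) +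
            MvPolynomial.C s * (P * trP (N + 1) d z) * MvPolynomial.pderiv i z) *
          Real.exp (s * ev y z) -
        ev y (MvPolynomial.pderiv i P + MvPolynomial.C (s + d) * P * MvPolynomial.pderiv i z) *
          Real.exp ((s + d) * ev y z)) ^ 2)

lemma diff_nonneg (J : ℕ) (z : MvPolynomial ι ℝ) (s d : ℝ) (N : ℕ) (P : MvPolynomial ι ℝ)
    (y : EuclideanSpace ℝ ι) : 0 ≤ diff J z s d N P y := by
  unfold diff; positivity

lemma continuous_diff (J : ℕ) (z : MvPolynomial ι ℝ) (s d : ℝ) (N : ℕ) (P : MvPolynomial ι ℝ) :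
    Continuous (diff J z s d N P) := by
  unfold diff
  have hz := continuous_ev z
  have he : ∀ s : ℝ, Continuous (fun y : EuclideanSpace ℝ ι => Real.exp (s * ev y z)) :=
    fun s => Real.continuous_exp.comp (continuous_const.mul hz)
  refine Continuous.mul (by fun_prop) (Continuous.add ?_ ?_)
  · exact (((continuous_ev _).mul (he _)).sub ((continuous_ev _).mul (he _))).pow 2
  · exact continuous_finsetSum _ fun i _ =>
      (((continuous_ev _).mul (he _)).sub ((continuous_ev _).mul (he _))).pow 2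

lemma err_le (J : ℕ) (z : MvPolynomial ι ℝ) (s d : ℝ) (N : ℕ) (p P : MvPolynomial ι ℝ)
    (y : EuclideanSpace ℝ ι) :
    err J z (s + d) p P y ≤ 2 * err J z s p (P * trP (N + 1) d z) y + 2 * diff J z s d N P y := by
  unfold err diff
  have key : ∀ a b c : ℝ, (a - c) ^ 2 ≤ 2 * (a - b) ^ 2 + 2 * (b - c) ^ 2 := by
    intro a b c; nlinarith [sq_nonneg (a - b - (b - c))]
  have hw : 0 ≤ (1 + ‖y‖ ^ 2) ^ J := by positivity
  have h1 := key (ev y p) (ev y (P * trP (N + 1) d z) * Real.exp (s * ev y z))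
    (ev y P * Real.exp ((s + d) * ev y z))
  have h2 : ∑ i, (ev y (MvPolynomial.pderiv i p) -
        ev y (MvPolynomial.pderiv i P + MvPolynomial.C (s + d) * P * MvPolynomial.pderiv i z) *
          Real.exp ((s + d) * ev y z)) ^ 2 ≤
      2 * ∑ i, (ev y (MvPolynomial.pderiv i p) -
        ev y (MvPolynomial.pderiv i (P * trP (N + 1) d z) +
            MvPolynomial.C s * (P * trP (N + 1) d z) * MvPolynomial.pderiv i z) *
          Real.exp (s * ev y z)) ^ 2 +
      2 * ∑ i, (ev y (MvPolynomial.pderiv i (P * trP (N + 1) d z) +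
            MvPolynomial.C s * (P * trP (N + 1) d z) * MvPolynomial.pderiv i z) *
          Real.exp (s * ev y z) -
        ev y (MvPolynomial.pderiv i P + MvPolynomial.C (s + d) * P * MvPolynomial.pderiv i z) *
          Real.exp ((s + d) * ev y z)) ^ 2 := by
    rw [Finset.mul_sum, Finset.mul_sum, ← Finset.sum_add_distrib]
    exact Finset.sum_le_sum fun i _ => key _ _ _
  nlinarith [mul_le_mul_of_nonneg_left (add_le_add h1 h2) hw]

/-- Formula for the difference. -/
lemma diff_eq (J : ℕ) (z : MvPolynomial ι ℝ) (s d : ℝ) (N : ℕ) (P : MvPolynomial ι ℝ)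
    (y : EuclideanSpace ℝ ι) :
    diff J z s d N P y = (1 + ‖y‖ ^ 2) ^ J * Real.exp (s * ev y z) ^ 2 *
      ((ev y P * (tr (N + 1) (d * ev y z) - Real.exp (d * ev y z))) ^ 2 +
      ∑ i, (ev y (MvPolynomial.pderiv i P + MvPolynomial.C s * P * MvPolynomial.pderiv i z) *
          (tr (N + 1) (d * ev y z) - Real.exp (d * ev y z)) +
        ev y (MvPolynomial.C d * P * MvPolynomial.pderiv i z) *
          (tr N (d * ev y z) - Real.exp (d * ev y z))) ^ 2) := by
  unfold diff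
  have e : Real.exp ((s + d) * ev y z) = Real.exp (s * ev y z) * Real.exp (d * ev y z) := by
    rw [← Real.exp_add]; ring_nf
  rw [e, mul_assoc, mul_add (Real.exp (s * ev y z) ^ 2), Finset.mul_sum]
  congr 2
  · rw [show ev y (P * trP (N + 1) d z) = ev y P * tr (N + 1) (d * ev y z) by
      simp only [ev, map_mul]; rw [← ev, ← ev, ← ev, ev_trP]]
    ring
  · refine Finset.sum_congr rfl fun i _ => ?_
    have h1 : ev y (MvPolynomial.pderiv i (P * trP (N + 1) d z) +
            MvPolynomial.C s * (P * trP (N + 1) d z) * MvPolynomial.pderiv i z) =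
        ev y (MvPolynomial.pderiv i P + MvPolynomial.C s * P * MvPolynomial.pderiv i z) *
          tr (N + 1) (d * ev y z) +
        ev y (MvPolynomial.C d * P * MvPolynomial.pderiv i z) * tr N (d * ev y z) := by
      rw [← ev_trP, ← ev_trP, Derivation.leibniz, pderiv_trP]
      simp only [ev, map_add, map_mul, smul_eq_mul]
      ring
    have h2 : ev y (MvPolynomial.pderiv i P + MvPolynomial.C (s + d) * P *
          MvPolynomial.pderiv i z) =
        ev y (MvPolynomial.pderiv i P + MvPolynomial.C s * P * MvPolynomial.pderiv i z) +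
        ev y (MvPolynomial.C d * P * MvPolynomial.pderiv i z) := by
      simp only [ev, map_add, map_mul]
      ring
    rw [h1, h2]
    ring

/-- exponential domination of polynomial times subquadratic exponential -/
lemma dominate (m : ℕ) (B c : ℝ) (hc : 0 < c) :
    ∃ K : ℝ, 0 ≤ K ∧ ∀ t : ℝ, 0 ≤ t →
      (1 + t ^ 2) ^ m * Real.exp (2 * B * t) * Real.exp (c / 2 * (1 + t ^ 2)) ≤
        K * Real.exp (c * t ^ 2) := by
  refine ⟨(8 / c) ^ m * m.factorial * Real.exp (c / 8) * Real.exp (8 * B ^ 2 / c) *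
    Real.exp (c / 2), by positivity, fun t ht => ?_⟩
  have h1 : (1 + t ^ 2) ^ m ≤ (8 / c) ^ m * m.factorial * Real.exp (c / 8 * (1 + t ^ 2)) := by
    have h := Real.pow_div_factorial_le_exp (c / 8 * (1 + t ^ 2)) (by positivity) m
    have hf : (0 : ℝ) < m.factorial := by positivity
    rw [div_le_iff₀ hf] at h
    calc (1 + t ^ 2) ^ m = (8 / c) ^ m * (c / 8 * (1 + t ^ 2)) ^ m := by
          rw [← mul_pow]; congr 1; field_simp
      _ ≤ (8 / c) ^ m * (Real.exp (c / 8 * (1 + t ^ 2)) * m.factorial) := by gcongr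
      _ = _ := by ring
  have h2 : 2 * B * t ≤ c / 8 * t ^ 2 + 8 * B ^ 2 / c := by
    have : 0 ≤ (c * t - 8 * B) ^ 2 / (8 * c) := by positivity
    have e : (c * t - 8 * B) ^ 2 / (8 * c) = c / 8 * t ^ 2 + 8 * B ^ 2 / c - 2 * B * t := by
      field_simp; ring
    linarith
  calc (1 + t ^ 2) ^ m * Real.exp (2 * B * t) * Real.exp (c / 2 * (1 + t ^ 2))
      ≤ ((8 / c) ^ m * m.factorial * Real.exp (c / 8 * (1 + t ^ 2))) *
          Real.exp (c / 8 * t ^ 2 + 8 * B ^ 2 / c) * Real.exp (c / 2 * (1 + t ^ 2)) := by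
        gcongr
    _ = (8 / c) ^ m * m.factorial * Real.exp (c / 8) * Real.exp (8 * B ^ 2 / c) *
          Real.exp (c / 2) * Real.exp ((3 / 4) * c * t ^ 2) := by
        have e : Real.exp (c / 8 * (1 + t ^ 2)) * Real.exp (c / 8 * t ^ 2 + 8 * B ^ 2 / c) *
            Real.exp (c / 2 * (1 + t ^ 2)) = Real.exp (c / 8) * Real.exp (8 * B ^ 2 / c) *
            Real.exp (c / 2) * Real.exp ((3 / 4) * c * t ^ 2) := by
          simp only [← Real.exp_add]
          congr 1; ring
        calc _ = (8 / c) ^ m * m.factorial * (Real.exp (c / 8 * (1 + t ^ 2)) *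
              Real.exp (c / 8 * t ^ 2 + 8 * B ^ 2 / c) * Real.exp (c / 2 * (1 + t ^ 2))) := by ring
          _ = _ := by rw [e]; ring
    _ ≤ _ := by
        gcongr
        nlinarith [sq_nonneg t, mul_nonneg hc.le (sq_nonneg t)]

/-- Domination of the difference uniformly in `N`. -/
lemma diff_le (J : ℕ) (z : MvPolynomial ι ℝ) (A B c : ℝ) (_hA : 0 ≤ A) (hB : 0 ≤ B) (hc : 0 < c)
    (hzA : ∀ y : EuclideanSpace ℝ ι, |ev y z| ≤ A * (1 + ‖y‖ ^ 2))
    (hzB : ∀ y : EuclideanSpace ℝ ι, ev y z ≤ B * ‖y‖)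
    (s d : ℝ) (hs : 0 ≤ s) (hs1 : s ≤ 1) (hd : 0 ≤ d) (hdA : 2 * d * A ≤ c / 2)
    (P : MvPolynomial ι ℝ) :
    ∃ K : ℝ, 0 ≤ K ∧ ∀ N y, diff J z s d N P y ≤ K * Real.exp (c * ‖y‖ ^ 2) := by
  obtain ⟨A1, m1, hA1, hA1'⟩ := growth (4 * P ^ 2 +
    ∑ i, (8 * (MvPolynomial.pderiv i P + MvPolynomial.C s * P * MvPolynomial.pderiv i z) ^ 2 +
      8 * (MvPolynomial.C d * P * MvPolynomial.pderiv i z) ^ 2) : MvPolynomial ι ℝ)
  obtain ⟨K, hK, hK'⟩ := dominate (J + m1) B c hc
  refine ⟨A1 * K, by positivity, fun N y => ?_⟩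
  rw [diff_eq]
  set w := d * ev y z with hw
  set X := Real.exp |w| with hX
  have hX0 : 0 < X := Real.exp_pos _
  have ht1 : |tr (N + 1) w - Real.exp w| ≤ 2 * X := abs_tr_sub_le _ _
  have ht2 : |tr N w - Real.exp w| ≤ 2 * X := abs_tr_sub_le _ _
  have ht1' : (tr (N + 1) w - Real.exp w) ^ 2 ≤ 4 * X ^ 2 := by
    rw [← sq_abs]; nlinarith [abs_nonneg (tr (N + 1) w - Real.exp w)]
  have ht2' : (tr N w - Real.exp w) ^ 2 ≤ 4 * X ^ 2 := by
    rw [← sq_abs]; nlinarith [abs_nonneg (tr N w - Real.exp w)]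
  have hX2 : X ^ 2 ≤ Real.exp (c / 2 * (1 + ‖y‖ ^ 2)) := by
    rw [hX, ← Real.exp_nat_mul]
    apply Real.exp_le_exp.mpr
    rw [hw, abs_mul, abs_of_nonneg hd]
    push_cast
    calc 2 * (d * |ev y z|) ≤ 2 * (d * (A * (1 + ‖y‖ ^ 2))) := by
          have := hzA y
          gcongr
      _ = 2 * d * A * (1 + ‖y‖ ^ 2) := by ring
      _ ≤ c / 2 * (1 + ‖y‖ ^ 2) := by gcongr
  have hs2 : Real.exp (s * ev y z) ^ 2 ≤ Real.exp (2 * B * ‖y‖) := by
    rw [← Real.exp_nat_mul]
    apply Real.exp_le_exp.mpr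
    push_cast
    have h1 := hzB y
    have h2 : 0 ≤ B * ‖y‖ := by positivity
    nlinarith
  have hQ : (ev y P * (tr (N + 1) w - Real.exp w)) ^ 2 +
      ∑ i, (ev y (MvPolynomial.pderiv i P + MvPolynomial.C s * P * MvPolynomial.pderiv i z) *
          (tr (N + 1) w - Real.exp w) +
        ev y (MvPolynomial.C d * P * MvPolynomial.pderiv i z) *
          (tr N w - Real.exp w)) ^ 2 ≤ A1 * (1 + ‖y‖ ^ 2) ^ m1 * X ^ 2 := by
    have h1 : (ev y P * (tr (N + 1) w - Real.exp w)) ^ 2 ≤ 4 * (ev y P) ^ 2 * X ^ 2 := by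
      rw [mul_pow]; nlinarith [sq_nonneg (ev y P), mul_le_mul_of_nonneg_left ht1' (sq_nonneg (ev y P))]
    have h2 : ∀ q r : ℝ, (q * (tr (N + 1) w - Real.exp w) + r * (tr N w - Real.exp w)) ^ 2 ≤
        (8 * q ^ 2 + 8 * r ^ 2) * X ^ 2 := by
      intro q r
      have e1 : (q * (tr (N + 1) w - Real.exp w) + r * (tr N w - Real.exp w)) ^ 2 ≤
          2 * (q * (tr (N + 1) w - Real.exp w)) ^ 2 + 2 * (r * (tr N w - Real.exp w)) ^ 2 := by
        nlinarith [sq_nonneg (q * (tr (N + 1) w - Real.exp w) - r * (tr N w - Real.exp w))]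
      have e2 := mul_le_mul_of_nonneg_left ht1' (sq_nonneg q)
      have e3 := mul_le_mul_of_nonneg_left ht2' (sq_nonneg r)
      rw [mul_pow, mul_pow] at e1
      linarith
    calc _ ≤ 4 * (ev y P) ^ 2 * X ^ 2 + ∑ i, (8 * (ev y (MvPolynomial.pderiv i P +
            MvPolynomial.C s * P * MvPolynomial.pderiv i z)) ^ 2 +
            8 * (ev y (MvPolynomial.C d * P * MvPolynomial.pderiv i z)) ^ 2) * X ^ 2 :=
          add_le_add h1 (Finset.sum_le_sum fun i _ => h2 _ _)
      _ = ev y (4 * P ^ 2 + ∑ i, (8 * (MvPolynomial.pderiv i P + MvPolynomial.C s * P *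
            MvPolynomial.pderiv i z) ^ 2 + 8 * (MvPolynomial.C d * P *
            MvPolynomial.pderiv i z) ^ 2)) * X ^ 2 := by
          simp only [ev, map_add, map_mul, map_sum, map_pow, map_ofNat, Finset.sum_mul, add_mul]
      _ ≤ A1 * (1 + ‖y‖ ^ 2) ^ m1 * X ^ 2 := by
          gcongr
          exact (le_abs_self _).trans (hA1' y)
  calc _ ≤ (1 + ‖y‖ ^ 2) ^ J * Real.exp (2 * B * ‖y‖) *
          (A1 * (1 + ‖y‖ ^ 2) ^ m1 * Real.exp (c / 2 * (1 + ‖y‖ ^ 2))) := by
        refine mul_le_mul ?_ (hQ.trans ?_) ?_ ?_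
        · gcongr
        · gcongr
        · positivity
        · positivity
    _ = A1 * ((1 + ‖y‖ ^ 2) ^ (J + m1) * Real.exp (2 * B * ‖y‖) *
          Real.exp (c / 2 * (1 + ‖y‖ ^ 2))) := by ring
    _ ≤ A1 * (K * Real.exp (c * ‖y‖ ^ 2)) :=
        mul_le_mul_of_nonneg_left (hK' ‖y‖ (norm_nonneg _)) hA1
    _ = _ := by ring

lemma tendsto_diff (J : ℕ) (z : MvPolynomial ι ℝ) (s d : ℝ) (P : MvPolynomial ι ℝ)
    (y : EuclideanSpace ℝ ι) :
    Filter.Tendsto (fun N => diff J z s d N P y) Filter.atTop (nhds 0) := by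
  simp_rw [diff_eq]
  have h1 : Filter.Tendsto (fun N => tr N (d * ev y z) - Real.exp (d * ev y z)) Filter.atTop
      (nhds 0) := by
    have := (tendsto_tr (d * ev y z)).sub_const (Real.exp (d * ev y z))
    rwa [sub_self] at this
  have h2 : Filter.Tendsto (fun N => tr (N + 1) (d * ev y z) - Real.exp (d * ev y z)) Filter.atTop
      (nhds 0) := h1.comp (Filter.tendsto_add_atTop_nat 1)
  have h3 : Filter.Tendsto (fun N => (1 + ‖y‖ ^ 2) ^ J * Real.exp (s * ev y z) ^ 2 *
      ((ev y P * (tr (N + 1) (d * ev y z) - Real.exp (d * ev y z))) ^ 2 +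
      ∑ i, (ev y (MvPolynomial.pderiv i P + MvPolynomial.C s * P * MvPolynomial.pderiv i z) *
          (tr (N + 1) (d * ev y z) - Real.exp (d * ev y z)) +
        ev y (MvPolynomial.C d * P * MvPolynomial.pderiv i z) *
          (tr N (d * ev y z) - Real.exp (d * ev y z))) ^ 2)) Filter.atTop
      (nhds ((1 + ‖y‖ ^ 2) ^ J * Real.exp (s * ev y z) ^ 2 *
        ((ev y P * 0) ^ 2 + ∑ i, (ev y (MvPolynomial.pderiv i P + MvPolynomial.C s * P *
          MvPolynomial.pderiv i z) * 0 + ev y (MvPolynomial.C d * P *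
          MvPolynomial.pderiv i z) * 0) ^ 2))) := by
    refine Filter.Tendsto.const_mul _ (Filter.Tendsto.add ((h2.const_mul _).pow 2) ?_)
    exact tendsto_finsetSum _ fun i _ => ((h2.const_mul _).add (h1.const_mul _)).pow 2
  simpa using h3

lemma appr_step (z : MvPolynomial ι ℝ) (A B c : ℝ) (hA : 0 ≤ A) (hB : 0 ≤ B) (hc : 0 < c)
    (hint : Integrable (fun y : EuclideanSpace ℝ ι => Real.exp (c * ‖y‖ ^ 2))
      (stdGaussian (EuclideanSpace ℝ ι)))
    (hzA : ∀ y : EuclideanSpace ℝ ι, |ev y z| ≤ A * (1 + ‖y‖ ^ 2))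
    (hzB : ∀ y : EuclideanSpace ℝ ι, ev y z ≤ B * ‖y‖)
    (s d : ℝ) (hs : 0 ≤ s) (hs1 : s ≤ 1) (hd : 0 ≤ d) (hdA : 2 * d * A ≤ c / 2)
    (h : Appr z s) : Appr z (s + d) := by
  intro P J ε hε
  obtain ⟨K, hK, hK'⟩ := diff_le J z A B c hA hB hc hzA hzB s d hs hs1 hd hdA P
  have hlim : Filter.Tendsto (fun N => ∫⁻ y, ENNReal.ofReal (diff J z s d N P y)
      ∂stdGaussian (EuclideanSpace ℝ ι)) Filter.atTop (nhds (∫⁻ _, 0
      ∂stdGaussian (EuclideanSpace ℝ ι))) := by
    refine tendsto_lintegral_of_dominated_convergence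
      (fun y => ENNReal.ofReal (K * Real.exp (c * ‖y‖ ^ 2))) ?_ ?_ ?_ ?_
    · exact fun N => ENNReal.measurable_ofReal.comp (continuous_diff J z s d N P).measurable
    · exact fun N => Filter.Eventually.of_forall fun y => ENNReal.ofReal_le_ofReal (hK' N y)
    · exact (hint.const_mul K).lintegral_lt_top.ne
    · refine Filter.Eventually.of_forall fun y => ?_
      have := ENNReal.tendsto_ofReal (tendsto_diff J z s d P y)
      simpa using this
  rw [lintegral_zero] at hlim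
  have hε4 : (0 : ENNReal) < ENNReal.ofReal (ε / 4) := by
    rw [ENNReal.ofReal_pos]; positivity
  obtain ⟨N, hN⟩ := (hlim.eventually (gt_mem_nhds hε4)).exists
  obtain ⟨p, hp⟩ := h (P * trP (N + 1) d z) J (ε / 4) (by positivity)
  refine ⟨p, ?_⟩
  have hm1 : Measurable (fun y => ENNReal.ofReal (err J z s p (P * trP (N + 1) d z) y)) :=
    ENNReal.measurable_ofReal.comp (continuous_err J z s p _).measurable
  calc ∫⁻ y, ENNReal.ofReal (err J z (s + d) p P y) ∂stdGaussian (EuclideanSpace ℝ ι)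
      ≤ ∫⁻ y, (2 * ENNReal.ofReal (err J z s p (P * trP (N + 1) d z) y) +
          2 * ENNReal.ofReal (diff J z s d N P y)) ∂stdGaussian (EuclideanSpace ℝ ι) := by
        refine lintegral_mono fun y => ?_
        have h2 : (2 : ENNReal) = ENNReal.ofReal 2 := by simp
        rw [h2, ← ENNReal.ofReal_mul (by norm_num), ← ENNReal.ofReal_mul (by norm_num),
          ← ENNReal.ofReal_add (by have := err_nonneg J z s p (P * trP (N + 1) d z) y; positivity)
            (by have := diff_nonneg J z s d N P y; positivity)]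
        exact ENNReal.ofReal_le_ofReal (err_le J z s d N p P y)
    _ = 2 * ∫⁻ y, ENNReal.ofReal (err J z s p (P * trP (N + 1) d z) y)
          ∂stdGaussian (EuclideanSpace ℝ ι) +
        2 * ∫⁻ y, ENNReal.ofReal (diff J z s d N P y) ∂stdGaussian (EuclideanSpace ℝ ι) := by
        rw [lintegral_add_left (hm1.const_mul 2), lintegral_const_mul' _ _ (by simp),
          lintegral_const_mul' _ _ (by simp)]
    _ < 2 * ENNReal.ofReal (ε / 4) + 2 * ENNReal.ofReal (ε / 4) := by
        refine ENNReal.add_lt_add ?_ ?_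
        · exact (ENNReal.mul_lt_mul_iff_right (by norm_num) (by norm_num)).mpr hp
        · exact (ENNReal.mul_lt_mul_iff_right (by norm_num) (by norm_num)).mpr hN
    _ = ENNReal.ofReal ε := by
        have h2 : (2 : ENNReal) = ENNReal.ofReal 2 := by simp
        rw [h2, ← ENNReal.ofReal_mul (by norm_num), ← ENNReal.ofReal_add (by positivity)
          (by positivity)]
        congr 1; ring

lemma appr_one (z : MvPolynomial ι ℝ) (A B : ℝ) (hA : 0 ≤ A) (hB : 0 ≤ B)
    (hzA : ∀ y : EuclideanSpace ℝ ι, |ev y z| ≤ A * (1 + ‖y‖ ^ 2))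
    (hzB : ∀ y : EuclideanSpace ℝ ι, ev y z ≤ B * ‖y‖) : Appr z 1 := by
  obtain ⟨c, hc, hint⟩ := IsGaussian.exists_integrable_exp_sq (stdGaussian (EuclideanSpace ℝ ι))
  obtain ⟨M, hM⟩ := exists_nat_gt (4 * A / c)
  have hM0 : (0 : ℝ) < M := lt_of_le_of_lt (by positivity) hM
  have hd : (0 : ℝ) ≤ 1 / M := by positivity
  have hdA : 2 * (1 / (M : ℝ)) * A ≤ c / 2 := by
    rw [div_lt_iff₀ hc] at hM
    rw [show 2 * (1 / (M : ℝ)) * A = 2 * A / M by ring, div_le_iff₀ hM0]
    nlinarith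
  have key : ∀ m : ℕ, m ≤ M → Appr z ((m : ℝ) * (1 / M)) := by
    intro m
    induction m with
    | zero => intro _; simpa using appr_zero z
    | succ m ih =>
      intro hm
      have h1 := ih (by omega)
      have hm' : (m : ℝ) ≤ M := by exact_mod_cast (by omega : m ≤ M)
      have h2 := appr_step z A B c hA hB hc hint hzA hzB ((m : ℝ) * (1 / M)) (1 / M)
        (by positivity) (by rw [mul_one_div, div_le_one hM0]; exact hm') hd hdA h1
      have e : ((m + 1 : ℕ) : ℝ) * (1 / M) = (m : ℝ) * (1 / M) + 1 / M := by push_cast; ring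
      rw [e]; exact h2
  have := key M le_rfl
  rwa [mul_one_div, div_self hM0.ne'] at this

/-- The exponent as a polynomial. -/
noncomputable def expo (K : ι → ι → ℝ) (η : ι → ℝ) : MvPolynomial ι ℝ :=
  MvPolynomial.C (-(1 / 4)) * (∑ i, ∑ j, MvPolynomial.C (K i j) *
    (MvPolynomial.X i - MvPolynomial.C (η i)) * (MvPolynomial.X j - MvPolynomial.C (η j))) +
  MvPolynomial.C (1 / 2) * ∑ i, MvPolynomial.X i * MvPolynomial.C (η i)

lemma ev_expo (K : ι → ι → ℝ) (η : ι → ℝ) (y : EuclideanSpace ℝ ι) :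
    ev y (expo K η) = -(quad K (fun i => y i - η i) / 4) + (∑ i, y i * η i) / 2 := by
  simp only [ev, expo, quad, map_add, map_mul, map_sum, map_sub, MvPolynomial.eval_C,
    MvPolynomial.eval_X]
  ring

lemma ev_pderiv_expo (K : ι → ι → ℝ) (η : ι → ℝ) (hK : ∀ i j, K i j = K j i) (i : ι)
    (y : EuclideanSpace ℝ ι) :
    ev y (MvPolynomial.pderiv i (expo K η)) = η i / 2 - (∑ j, K i j * (y j - η j)) / 2 := by
  have hp : ∀ a b : ι, MvPolynomial.pderiv i (MvPolynomial.C (K a b) *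
      (MvPolynomial.X a - MvPolynomial.C (η a)) * (MvPolynomial.X b - MvPolynomial.C (η b)) :
        MvPolynomial ι ℝ) =
      MvPolynomial.C (K a b) * (MvPolynomial.X a - MvPolynomial.C (η a)) *
        (Pi.single (M := fun _ => MvPolynomial ι ℝ) b 1 i) +
      MvPolynomial.C (K a b) * (MvPolynomial.X b - MvPolynomial.C (η b)) *
        (Pi.single (M := fun _ => MvPolynomial ι ℝ) a 1 i) := by
    intro a b
    simp only [Derivation.leibniz, map_sub, MvPolynomial.pderiv_C, MvPolynomial.pderiv_X,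
      smul_eq_mul, mul_zero, add_zero, sub_zero]
    simp only [Pi.single_apply, eq_comm]
    ring
  have h1 : MvPolynomial.pderiv i (expo K η) =
      MvPolynomial.C (-(1 / 4)) * (∑ a, ∑ b, (MvPolynomial.C (K a b) *
          (MvPolynomial.X a - MvPolynomial.C (η a)) *
          (Pi.single (M := fun _ => MvPolynomial ι ℝ) b 1 i) +
        MvPolynomial.C (K a b) * (MvPolynomial.X b - MvPolynomial.C (η b)) *
          (Pi.single (M := fun _ => MvPolynomial ι ℝ) a 1 i))) +
      MvPolynomial.C (1 / 2) * ∑ a, MvPolynomial.C (η a) *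
        (Pi.single (M := fun _ => MvPolynomial ι ℝ) a 1 i) := by
    unfold expo
    rw [map_add, MvPolynomial.pderiv_C_mul, MvPolynomial.pderiv_C_mul, map_sum, map_sum]
    congr 1
    · congr 1
      refine Finset.sum_congr rfl fun a _ => ?_
      rw [map_sum]
      exact Finset.sum_congr rfl fun b _ => hp a b
    · congr 1
      refine Finset.sum_congr rfl fun a _ => ?_
      rw [mul_comm, MvPolynomial.pderiv_C_mul, MvPolynomial.pderiv_X]
      simp only [Pi.single_apply, eq_comm]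
  rw [h1]
  have e1 : ∀ (b : ι) (c : ℝ), MvPolynomial.eval (fun i => y i)
      (Pi.single (M := fun _ => MvPolynomial ι ℝ) b 1 i) * c = if b = i then c else 0 := by
    intro b c
    by_cases h : b = i
    · subst h; simp
    · rw [Pi.single_eq_of_ne (fun h' => h h'.symm)]; simp [h]
  simp only [ev, map_add, map_mul, map_sum, map_sub, MvPolynomial.eval_C, MvPolynomial.eval_X]
  have e2 : ∀ (b : ι), MvPolynomial.eval (fun i => y i)
      (Pi.single (M := fun _ => MvPolynomial ι ℝ) b 1 i) = if b = i then 1 else 0 := by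
    intro b
    have := e1 b 1
    simpa using this
  simp only [e2, Finset.sum_add_distrib, mul_ite, mul_one, mul_zero, Finset.sum_ite_eq',
    Finset.mem_univ, if_true]
  have e3 : ∑ a, ∑ b, (if a = i then K a b * (y b - η b) else 0) = ∑ b, K i b * (y b - η b) := by
    rw [Finset.sum_comm]
    refine Finset.sum_congr rfl fun b _ => ?_
    simp
  have e4 : ∑ a, K a i * (y a - η a) = ∑ b, K i b * (y b - η b) :=
    Finset.sum_congr rfl fun b _ => by rw [hK]
  rw [e3, e4]
  ring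

theorem poly : PolyStatement := by
  intro ι _ _ K η J ε hε hsymm hpos
  -- bounds on the exponent
  have hzA : ∃ A : ℝ, 0 ≤ A ∧ ∀ y : EuclideanSpace ℝ ι, |ev y (expo K η)| ≤ A * (1 + ‖y‖ ^ 2) := by
    refine ⟨(∑ i, ∑ j, |K i j| * (1 + |η i|) * (1 + |η j|)) / 2 + ∑ i, |η i|, by positivity,
      fun y => ?_⟩
    rw [ev_expo]
    have hn := norm_nonneg y
    have h1 : |quad K (fun i => y i - η i)| ≤
        (∑ i, ∑ j, |K i j| * (1 + |η i|) * (1 + |η j|)) * (2 * (1 + ‖y‖ ^ 2)) := by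
      unfold quad
      rw [Finset.sum_mul]
      refine (Finset.abs_sum_le_sum_abs _ _).trans (Finset.sum_le_sum fun i _ => ?_)
      rw [Finset.sum_mul]
      refine (Finset.abs_sum_le_sum_abs _ _).trans (Finset.sum_le_sum fun j _ => ?_)
      have hb : ∀ k, |y k - η k| ≤ (1 + |η k|) * (1 + ‖y‖) := by
        intro k
        have := abs_coord_le y k
        have h2 := abs_sub (y k) (η k)
        nlinarith [abs_nonneg (η k), mul_nonneg (abs_nonneg (η k)) hn]
      rw [abs_mul, abs_mul]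
      calc |K i j| * |y i - η i| * |y j - η j|
          ≤ |K i j| * ((1 + |η i|) * (1 + ‖y‖)) * ((1 + |η j|) * (1 + ‖y‖)) := by
            have h3 := hb i
            have h4 := hb j
            gcongr
        _ = |K i j| * (1 + |η i|) * (1 + |η j|) * (1 + ‖y‖) ^ 2 := by ring
        _ ≤ |K i j| * (1 + |η i|) * (1 + |η j|) * (2 * (1 + ‖y‖ ^ 2)) := by
            gcongr
            nlinarith [sq_nonneg (‖y‖ - 1)]
    have h2 : |∑ i, y i * η i| ≤ (∑ i, |η i|) * (1 + ‖y‖ ^ 2) := by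
      rw [Finset.sum_mul]
      refine (Finset.abs_sum_le_sum_abs _ _).trans (Finset.sum_le_sum fun i _ => ?_)
      rw [abs_mul, mul_comm]
      have := abs_coord_le y i
      gcongr
      nlinarith [sq_nonneg (‖y‖ - 1)]
    have h3 : 0 ≤ (∑ i, |η i|) * (1 + ‖y‖ ^ 2) := by positivity
    calc |-(quad K (fun i => y i - η i) / 4) + (∑ i, y i * η i) / 2|
        ≤ |-(quad K (fun i => y i - η i) / 4)| + |(∑ i, y i * η i) / 2| := abs_add_le _ _
      _ = |quad K (fun i => y i - η i)| / 4 + |∑ i, y i * η i| / 2 := by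
          rw [abs_neg, abs_div, abs_div]; norm_num
      _ ≤ _ := by linarith
  have hzB : ∃ B : ℝ, 0 ≤ B ∧ ∀ y : EuclideanSpace ℝ ι, ev y (expo K η) ≤ B * ‖y‖ := by
    refine ⟨(∑ i, |η i|) / 2, by positivity, fun y => ?_⟩
    rw [ev_expo]
    have h1 := hpos (fun i => y i - η i)
    have h2 : ∑ i, y i * η i ≤ (∑ i, |η i|) * ‖y‖ := by
      rw [Finset.sum_mul]
      refine Finset.sum_le_sum fun i _ => ?_
      calc y i * η i ≤ |y i * η i| := le_abs_self _
        _ = |η i| * |y i| := by rw [abs_mul, mul_comm]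
        _ ≤ |η i| * ‖y‖ := by
            have := abs_coord_le y i
            gcongr
    linarith
  obtain ⟨A, hA, hzA⟩ := hzA
  obtain ⟨B, hB, hzB⟩ := hzB
  obtain ⟨p, hp⟩ := appr_one (expo K η) A B hA hB hzA hzB 1 J ε hε
  refine ⟨p, lt_of_le_of_lt (le_of_eq ?_) hp⟩
  refine lintegral_congr fun y => ?_
  congr 1
  unfold err squeezed
  rw [ev_expo]
  congr 2
  · simp [ev]
  · refine Finset.sum_congr rfl fun i _ => ?_
    have h1 : ev y (MvPolynomial.pderiv i (1 : MvPolynomial ι ℝ) + MvPolynomial.C 1 * 1 *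
        MvPolynomial.pderiv i (expo K η)) = η i / 2 - (∑ j, K i j * (y j - η j)) / 2 := by
      rw [← ev_pderiv_expo K η hsymm i y]
      have : MvPolynomial.pderiv i (1 : MvPolynomial ι ℝ) = 0 := by simp
      rw [this]
      simp
    rw [h1, one_mul]
    ring

end Pool.Agent.Helper75_Pauli
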